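import Pool.Agent.R996.Bess.Main

/-!
# Minima of the Turán ratio for Bessel functions
-/

set_option autoImplicit false

open Filter Topology Set Pool.Agent.R996.Bess

namespace Pool.Agent.Results.MP_f30c32_an.YesForAllOrders

/-- For every `ν > 0`, with `j` the increasing list of the positive zeros of `J_ν` and `j 0 = 0`:
the Turán ratio `Phi ν` is differentiable on each `(j n, j (n+1))`, its limit at `0⁺` is
`1 / (ν + 1)`, for every `n ≥ 1` its derivative vanishes at exactly one point `α n` of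
`(j n, j (n+1))`, the sequence `β 0 = 1 / (ν + 1)`, `β n = Phi ν (α n)` is strictly increasing, and
`β n < Phi ν x` for every other point `x` of `(j n, j (n+1))`. -/
theorem result (ν : ℝ) (hν : 0 < ν) :
    ∃ j : ℕ → ℝ, IsZeroList ν j ∧
      Tendsto (Phi ν) (𝓝[>] 0) (𝓝 (1 / (ν + 1))) ∧
      (∀ n : ℕ, DifferentiableOn ℝ (Phi ν) (Ioo (j n) (j (n + 1)))) ∧
      ∃ α β : ℕ → ℝ, α 0 = 0 ∧ β 0 = 1 / (ν + 1) ∧
        (∀ n : ℕ, 1 ≤ n → α n ∈ Ioo (j n) (j (n + 1)) ∧ β n = Phi ν (α n) ∧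
          ∀ x ∈ Ioo (j n) (j (n + 1)), deriv (Phi ν) x = 0 ↔ x = α n) ∧
        StrictMono β ∧
        ∀ n : ℕ, ∀ x ∈ Ioo (j n) (j (n + 1)), x ≠ α n → β n < Phi ν x :=
  Pool.Agent.R996.Bess.main ν hν

end Pool.Agent.Results.MP_f30c32_an.YesForAllOrders
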